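import Mathlib

/-!
A one-dimensional sup-convolution inequality for antitone sequences.
-/

namespace Pool.Agent.U685.DF

open Finset

/-- The weight `(k + 1) ^ (-1/5)`. -/
noncomputable def wt (k : ℕ) : ℝ := ((k : ℝ) + 1) ^ (-(1 / 5) : ℝ)

lemma wt_pos (k : ℕ) : 0 < wt k := by unfold wt; positivity

lemma wt_anti : Antitone wt := by
  intro a b hab
  unfold wt
  apply Real.rpow_le_rpow_of_nonpos (by positivity) (by gcongr) (by norm_num)

/-- `∑_{t<m} (t+1)^(-1/5) ≤ (5/4) m^(4/5)` -/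
lemma wt_sum (m : ℕ) : ∑ t ∈ range m, wt t ≤ (5 / 4) * (m : ℝ) ^ (4 / 5 : ℝ) := by
  induction m with
  | zero => simp
  | succ m ih =>
    rw [Finset.sum_range_succ]
    have h1 : (0 : ℝ) < (m : ℝ) + 1 := by positivity
    have h2 : ((m : ℝ)) ^ (4 / 5 : ℝ) ≤ ((m : ℝ) + 1) ^ (4 / 5 : ℝ) -
        (4 / 5) * ((m : ℝ) + 1) ^ (-(1 / 5) : ℝ) := by
      have e1 : (m : ℝ) = ((m : ℝ) + 1) * (1 + (-(1 / ((m : ℝ) + 1)))) := by field_simp; ring
      have h3 : (0 : ℝ) ≤ 1 + (-(1 / ((m : ℝ) + 1))) := by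
        have : 1 / ((m : ℝ) + 1) ≤ 1 := by
          rw [div_le_one h1]; linarith [(Nat.cast_nonneg m : (0 : ℝ) ≤ m)]
        linarith
      have h4 : (1 + (-(1 / ((m : ℝ) + 1)))) ^ (4 / 5 : ℝ) ≤ 1 + (4 / 5) * (-(1 / ((m : ℝ) + 1))) :=
        rpow_one_add_le_one_add_mul_self (by linarith) (by norm_num) (by norm_num)
      have h5 : ((m : ℝ) + 1) ^ (4 / 5 : ℝ) * (1 / ((m : ℝ) + 1)) =
          ((m : ℝ) + 1) ^ (-(1 / 5) : ℝ) := by
        rw [one_div, ← Real.rpow_neg_one, ← Real.rpow_add h1]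
        norm_num
      calc ((m : ℝ)) ^ (4 / 5 : ℝ) =
          (((m : ℝ) + 1) * (1 + (-(1 / ((m : ℝ) + 1))))) ^ (4 / 5 : ℝ) := by rw [← e1]
        _ = ((m : ℝ) + 1) ^ (4 / 5 : ℝ) * (1 + (-(1 / ((m : ℝ) + 1)))) ^ (4 / 5 : ℝ) :=
            Real.mul_rpow h1.le h3
        _ ≤ ((m : ℝ) + 1) ^ (4 / 5 : ℝ) * (1 + (4 / 5) * (-(1 / ((m : ℝ) + 1)))) := by
            gcongr
        _ = ((m : ℝ) + 1) ^ (4 / 5 : ℝ) - (4 / 5) *
            (((m : ℝ) + 1) ^ (4 / 5 : ℝ) * (1 / ((m : ℝ) + 1))) := by ring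
        _ = _ := by rw [h5]
    unfold wt at *
    push_cast
    linarith

/-- The final scalar inequality. -/
lemma scalar (z : ℝ) (hz : 0 ≤ z) :
    (5 / 4 : ℝ) ^ (5 / 4 : ℝ) * z ^ (8 / 5 : ℝ) ≤ (4 / 5) * z ^ 2 + (3 / 5) * z := by
  have h1 := Real.geom_mean_le_arith_mean2_weighted (w₁ := 3 / 5) (w₂ := 2 / 5)
    (p₁ := (4 / 3) * z ^ 2) (p₂ := (3 / 2) * z) (by norm_num) (by norm_num) (by positivity)
    (by positivity) (by norm_num)
  have h2 : ((4 / 3) * z ^ 2) ^ (3 / 5 : ℝ) * ((3 / 2) * z) ^ (2 / 5 : ℝ) =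
      ((4 / 3 : ℝ) ^ (3 / 5 : ℝ) * (3 / 2 : ℝ) ^ (2 / 5 : ℝ)) * z ^ (8 / 5 : ℝ) := by
    rw [Real.mul_rpow (by norm_num) (by positivity), Real.mul_rpow (by norm_num) hz,
      ← Real.rpow_natCast z 2, ← Real.rpow_mul hz]
    have : z ^ (8 / 5 : ℝ) = z ^ (((2 : ℕ) : ℝ) * (3 / 5)) * z ^ (2 / 5 : ℝ) := by
      rw [← Real.rpow_add_of_nonneg hz (by norm_num) (by norm_num)]
      norm_num
    rw [this]
    ring
  have h3 : (5 / 4 : ℝ) ^ (5 / 4 : ℝ) ≤ (4 / 3 : ℝ) ^ (3 / 5 : ℝ) * (3 / 2 : ℝ) ^ (2 / 5 : ℝ) := by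
    have e1 : (5 / 4 : ℝ) ^ (5 / 4 : ℝ) = ((5 / 4 : ℝ) ^ (25 : ℕ)) ^ (1 / 20 : ℝ) := by
      rw [← Real.rpow_natCast, ← Real.rpow_mul (by norm_num)]
      norm_num
    have e2 : (4 / 3 : ℝ) ^ (3 / 5 : ℝ) = ((4 / 3 : ℝ) ^ (12 : ℕ)) ^ (1 / 20 : ℝ) := by
      rw [← Real.rpow_natCast, ← Real.rpow_mul (by norm_num)]
      norm_num
    have e3 : (3 / 2 : ℝ) ^ (2 / 5 : ℝ) = ((3 / 2 : ℝ) ^ (8 : ℕ)) ^ (1 / 20 : ℝ) := by
      rw [← Real.rpow_natCast, ← Real.rpow_mul (by norm_num)]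
      norm_num
    rw [e1, e2, e3, ← Real.mul_rpow (by positivity) (by positivity)]
    apply Real.rpow_le_rpow (by positivity) (by norm_num) (by norm_num)
  rw [h2] at h1
  have h4 : 0 ≤ z ^ (8 / 5 : ℝ) := by positivity
  nlinarith [mul_le_mul_of_nonneg_right h3 h4]

/-- The potential. -/
noncomputable def XX (C : ℕ → ℝ) (m : ℕ) : ℝ := ∑ t ∈ range m, wt t * C t ^ (8 / 5 : ℝ)

lemma XX_nonneg (C : ℕ → ℝ) (h0 : ∀ t, 0 ≤ C t) (m : ℕ) : 0 ≤ XX C m :=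
  Finset.sum_nonneg fun t _ => mul_nonneg (wt_pos t).le (Real.rpow_nonneg (h0 t) _)

lemma potential (C : ℕ → ℝ) (h0 : ∀ t, 0 ≤ C t) (h1 : ∀ t, C t ≤ 1) (hC : C 0 = 1)
    (m : ℕ) : XX C (m + 1) ^ (5 / 4 : ℝ) ≤
      ∑ t ∈ range (m + 1), ((4 / 5) * C t ^ 2 + (3 / 5) * C t) - 2 / 5 := by
  induction m with
  | zero =>
    unfold XX wt
    simp only [zero_add, Finset.sum_range_one, hC, Nat.cast_zero, Real.one_rpow]
    norm_num
  | succ m ih =>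
    rw [Finset.sum_range_succ]
    have hx0 : 0 ≤ XX C (m + 1) := XX_nonneg C h0 _
    obtain ⟨x, hx⟩ : ∃ x, x = XX C (m + 1) := ⟨_, rfl⟩
    obtain ⟨δ, hδ⟩ : ∃ δ, δ = wt (m + 1) * C (m + 1) ^ (8 / 5 : ℝ) := ⟨_, rfl⟩
    have hy : XX C (m + 1 + 1) = x + δ := by
      rw [hx, hδ]
      unfold XX
      rw [Finset.sum_range_succ]
    have hδ0 : 0 ≤ δ := by
      rw [hδ]; exact mul_nonneg (wt_pos _).le (Real.rpow_nonneg (h0 _) _)
    have hxpos : 0 < x := by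
      rw [hx]
      unfold XX
      rw [Finset.sum_range_succ']
      have : 0 ≤ ∑ k ∈ range m, wt (k + 1) * C (k + 1) ^ (8 / 5 : ℝ) :=
        Finset.sum_nonneg fun t _ => mul_nonneg (wt_pos _).le (Real.rpow_nonneg (h0 _) _)
      have h3 : 0 < wt 0 * C 0 ^ (8 / 5 : ℝ) := by
        rw [hC, Real.one_rpow, mul_one]; exact wt_pos 0
      linarith
    rw [hy]
    rw [← hx] at ih
    obtain ⟨y, hyy⟩ : ∃ y, y = x + δ := ⟨_, rfl⟩
    have hypos : 0 < y := by linarith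
    rw [← hyy]
    -- tangent line
    have t1 : y ^ (5 / 4 : ℝ) - (5 / 4) * (y ^ (1 / 4 : ℝ) * δ) ≤ x ^ (5 / 4 : ℝ) := by
      have e1 : x = y * (1 + (-(δ / y))) := by rw [hyy]; field_simp; ring
      have h3 : (-1 : ℝ) ≤ -(δ / y) := by
        rw [neg_le_neg_iff, div_le_one hypos]; linarith
      have h4 : 1 + (5 / 4) * (-(δ / y)) ≤ (1 + (-(δ / y))) ^ (5 / 4 : ℝ) :=
        one_add_mul_self_le_rpow_one_add h3 (by norm_num)
      have h5 : y ^ (5 / 4 : ℝ) * (δ / y) = y ^ (1 / 4 : ℝ) * δ := by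
        have : y ^ (5 / 4 : ℝ) = y ^ (1 / 4 : ℝ) * y := by
          nth_rewrite 3 [← Real.rpow_one y]
          rw [← Real.rpow_add hypos]
          norm_num
        rw [this]
        field_simp
      calc y ^ (5 / 4 : ℝ) - (5 / 4) * (y ^ (1 / 4 : ℝ) * δ) =
          y ^ (5 / 4 : ℝ) * (1 + (5 / 4) * (-(δ / y))) := by rw [← h5]; ring
        _ ≤ y ^ (5 / 4 : ℝ) * (1 + (-(δ / y))) ^ (5 / 4 : ℝ) := by gcongr
        _ = (y * (1 + (-(δ / y)))) ^ (5 / 4 : ℝ) := by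
            rw [Real.mul_rpow hypos.le (by linarith)]
        _ = x ^ (5 / 4 : ℝ) := by rw [← e1]
    -- size of y
    have t2 : y ≤ (5 / 4) * ((m : ℝ) + 1 + 1) ^ (4 / 5 : ℝ) := by
      have h3 := wt_sum (m + 1 + 1)
      push_cast at h3
      refine le_trans ?_ h3
      rw [hyy, ← hy]
      unfold XX
      apply Finset.sum_le_sum
      intro t _
      have : C t ^ (8 / 5 : ℝ) ≤ 1 := Real.rpow_le_one (h0 t) (h1 t) (by norm_num)
      nlinarith [wt_pos t]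
    have hmp : (0 : ℝ) < (m : ℝ) + 1 + 1 := by positivity
    have t3 : y ^ (1 / 4 : ℝ) ≤ (5 / 4) ^ (1 / 4 : ℝ) * ((m : ℝ) + 1 + 1) ^ (1 / 5 : ℝ) := by
      have h3 := Real.rpow_le_rpow hypos.le t2 (by norm_num : (0 : ℝ) ≤ 1 / 4)
      rw [Real.mul_rpow (by norm_num) (by positivity), ← Real.rpow_mul hmp.le] at h3
      norm_num at h3 ⊢
      exact h3
    have t4 : (5 / 4) * (y ^ (1 / 4 : ℝ) * δ) ≤
        (5 / 4 : ℝ) ^ (5 / 4 : ℝ) * C (m + 1) ^ (8 / 5 : ℝ) := by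
      have h3 : wt (m + 1) = ((m : ℝ) + 1 + 1) ^ (-(1 / 5) : ℝ) := by unfold wt; push_cast; rfl
      have h4 : ((m : ℝ) + 1 + 1) ^ (1 / 5 : ℝ) * ((m : ℝ) + 1 + 1) ^ (-(1 / 5) : ℝ) = 1 := by
        rw [← Real.rpow_add hmp]; norm_num
      have h5 : (5 / 4 : ℝ) ^ (5 / 4 : ℝ) = (5 / 4) * (5 / 4) ^ (1 / 4 : ℝ) := by
        nth_rewrite 3 [← Real.rpow_one (5 / 4)]
        rw [← Real.rpow_add (by norm_num)]
        norm_num
      calc (5 / 4) * (y ^ (1 / 4 : ℝ) * δ) ≤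
          (5 / 4) * (((5 / 4) ^ (1 / 4 : ℝ) * ((m : ℝ) + 1 + 1) ^ (1 / 5 : ℝ)) * δ) := by
            gcongr
        _ = ((5 / 4) * (5 / 4) ^ (1 / 4 : ℝ)) * (((m : ℝ) + 1 + 1) ^ (1 / 5 : ℝ) *
            ((m : ℝ) + 1 + 1) ^ (-(1 / 5) : ℝ)) * C (m + 1) ^ (8 / 5 : ℝ) := by
            rw [hδ, h3]; ring
        _ = _ := by rw [h4, h5, mul_one]
    have t5 := scalar (C (m + 1)) (h0 _)
    linarith

/-- Diagonal bound. -/
lemma diag (C D : ℕ → ℝ) (hC0 : ∀ t, 0 ≤ C t) (hD0 : ∀ t, 0 ≤ D t)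
    (hC1 : ∀ t, C t ≤ 1) (hD1 : ∀ t, D t ≤ 1) (hC : C 0 = 1) (hD : D 0 = 1) (M : ℕ → ℝ) (k : ℕ) :
    ∀ m n : ℕ, m + n = k → (∀ t ≤ m, ∀ j ≤ n, C t * D j ≤ M (t + j)) →
    ∑ t ∈ range (m + 1), C t ^ 2 + ∑ t ∈ range (n + 1), D t ^ 2 - 1 ≤
      ∑ s ∈ range (m + n + 1), M s := by
  induction k with
  | zero =>
    intro m n hmn hM
    obtain ⟨rfl, rfl⟩ : m = 0 ∧ n = 0 := by omega
    have := hM 0 le_rfl 0 le_rfl
    simp only [zero_add, Finset.sum_range_one, hC, hD] at this ⊢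
    linarith
  | succ k ih =>
    intro m n hmn hM
    by_cases hcase : m ≠ 0 ∧ (n = 0 ∨ C m ≤ D n)
    · obtain ⟨hm, hcd⟩ := hcase
      obtain ⟨m', rfl⟩ : ∃ m', m = m' + 1 := ⟨m - 1, by omega⟩
      have h1 := ih m' n (by omega) (fun t ht j hj => hM t (by omega) j hj)
      rw [Finset.sum_range_succ _ (m' + 1)]
      have e1 : m' + 1 + n + 1 = (m' + n + 1) + 1 := by omega
      rw [e1, Finset.sum_range_succ _ (m' + n + 1)]
      have h2 := hM (m' + 1) le_rfl n le_rfl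
      have e2 : m' + 1 + n = m' + n + 1 := by omega
      rw [e2] at h2
      have h3 : C (m' + 1) ≤ D n := by
        rcases hcd with h | h
        · rw [h, hD]; exact hC1 _
        · exact h
      nlinarith [hC0 (m' + 1)]
    · have hn : n ≠ 0 := by
        intro hn
        exact hcase ⟨by omega, Or.inl hn⟩
      obtain ⟨n', rfl⟩ : ∃ n', n = n' + 1 := ⟨n - 1, by omega⟩
      have h1 := ih m n' (by omega) (fun t ht j hj => hM t ht j (by omega))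
      rw [Finset.sum_range_succ _ (n' + 1)]
      have e1 : m + (n' + 1) + 1 = (m + n' + 1) + 1 := by omega
      rw [e1, Finset.sum_range_succ _ (m + n' + 1)]
      have h2 := hM m le_rfl (n' + 1) le_rfl
      have e2 : m + (n' + 1) = m + n' + 1 := by omega
      rw [e2] at h2
      have h3 : D (n' + 1) ≤ C m := by
        by_cases hm : m = 0
        · rw [hm, hC]; exact hD1 _
        · by_contra h
          exact hcase ⟨hm, Or.inr (le_of_not_ge h)⟩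
      nlinarith [hD0 (n' + 1)]

/-- Normalised form. -/
lemma oneD_norm (m n : ℕ) (C D M : ℕ → ℝ) (hC0 : ∀ t, 0 ≤ C t) (hD0 : ∀ t, 0 ≤ D t)
    (hC1 : ∀ t, C t ≤ 1) (hD1 : ∀ t, D t ≤ 1) (hC : C 0 = 1) (hD : D 0 = 1)
    (hM : ∀ t ≤ m, ∀ j ≤ n, C t * D j ≤ M (t + j)) :
    (XX C (m + 1) * XX D (n + 1)) ^ (5 / 8 : ℝ) ≤ ∑ s ∈ range (m + n + 1), M s := by
  have hM0 : ∀ s < m + n + 1, 0 ≤ M s := by
    intro s hs
    by_cases h : s ≤ m
    · exact (mul_nonneg (hC0 s) (hD0 0)).trans (hM s h 0 (Nat.zero_le _))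
    · have := (mul_nonneg (hC0 m) (hD0 (s - m))).trans (hM m le_rfl (s - m) (by omega))
      rwa [Nat.add_sub_cancel' (by omega)] at this
  have h1 : ∑ t ∈ range (m + 1), C t ≤ ∑ s ∈ range (m + n + 1), M s := by
    refine le_trans (Finset.sum_le_sum (g := M) fun t ht => ?_)
      (Finset.sum_le_sum_of_subset_of_nonneg (Finset.range_mono (by omega)) fun s hs _ =>
        hM0 s (Finset.mem_range.1 hs))
    have := hM t (by have := Finset.mem_range.1 ht; omega) 0 (Nat.zero_le _)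
    rwa [hD, mul_one] at this
  have h2 : ∑ t ∈ range (n + 1), D t ≤ ∑ s ∈ range (m + n + 1), M s := by
    refine le_trans (Finset.sum_le_sum (g := M) fun t ht => ?_)
      (Finset.sum_le_sum_of_subset_of_nonneg (Finset.range_mono (by omega)) fun s hs _ =>
        hM0 s (Finset.mem_range.1 hs))
    have := hM 0 (Nat.zero_le _) t (by have := Finset.mem_range.1 ht; omega)
    rwa [hC, one_mul, zero_add] at this
  have h3 := diag C D hC0 hD0 hC1 hD1 hC hD M (m + n) m n rfl hM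
  have h4 := potential C hC0 hC1 hC m
  have h5 := potential D hD0 hD1 hD n
  rw [Finset.sum_add_distrib, ← Finset.mul_sum, ← Finset.mul_sum] at h4 h5
  have hx := XX_nonneg C hC0 (m + 1)
  have hy := XX_nonneg D hD0 (n + 1)
  have h6 : (XX C (m + 1) * XX D (n + 1)) ^ (5 / 8 : ℝ) ≤
      (1 / 2) * XX C (m + 1) ^ (5 / 4 : ℝ) + (1 / 2) * XX D (n + 1) ^ (5 / 4 : ℝ) := by
    have h7 := Real.geom_mean_le_arith_mean2_weighted (w₁ := 1 / 2) (w₂ := 1 / 2)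
      (p₁ := XX C (m + 1) ^ (5 / 4 : ℝ)) (p₂ := XX D (n + 1) ^ (5 / 4 : ℝ)) (by norm_num)
      (by norm_num) (by positivity) (by positivity) (by norm_num)
    rw [← Real.rpow_mul hx, ← Real.rpow_mul hy] at h7
    rw [Real.mul_rpow hx hy]
    norm_num at h7 ⊢
    exact h7
  linarith

/-- The one-dimensional inequality. -/
theorem oneD (m n : ℕ) (C D M : ℕ → ℝ) (hCa : Antitone C) (hDa : Antitone D)
    (hC0 : ∀ t, 0 ≤ C t) (hD0 : ∀ t, 0 ≤ D t)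
    (hM : ∀ t ≤ m, ∀ j ≤ n, C t * D j ≤ M (t + j)) :
    (XX C (m + 1) * XX D (n + 1)) ^ (5 / 8 : ℝ) ≤ ∑ s ∈ range (m + n + 1), M s := by
  have hM0 : ∀ s < m + n + 1, 0 ≤ M s := by
    intro s hs
    by_cases h : s ≤ m
    · exact (mul_nonneg (hC0 s) (hD0 0)).trans (hM s h 0 (Nat.zero_le _))
    · have := (mul_nonneg (hC0 m) (hD0 (s - m))).trans (hM m le_rfl (s - m) (by omega))
      rwa [Nat.add_sub_cancel' (by omega)] at this
  have hzero : ∀ C : ℕ → ℝ, Antitone C → (∀ t, 0 ≤ C t) → C 0 = 0 → ∀ m, XX C m = 0 := by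
    intro C hC h0 h m
    unfold XX
    apply Finset.sum_eq_zero
    intro t _
    have : C t = 0 := le_antisymm ((hC (Nat.zero_le t)).trans h.le) (h0 t)
    rw [this, Real.zero_rpow (by norm_num), mul_zero]
  have hRHS : 0 ≤ ∑ s ∈ range (m + n + 1), M s :=
    Finset.sum_nonneg fun s hs => hM0 s (Finset.mem_range.1 hs)
  rcases eq_or_lt_of_le (hC0 0) with h | hc
  · rw [hzero C hCa hC0 h.symm, zero_mul, Real.zero_rpow (by norm_num)]
    exact hRHS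
  rcases eq_or_lt_of_le (hD0 0) with h | hd
  · rw [hzero D hDa hD0 h.symm, mul_zero, Real.zero_rpow (by norm_num)]
    exact hRHS
  have hsc : ∀ (C : ℕ → ℝ), (∀ t, 0 ≤ C t) → 0 < C 0 → ∀ m, XX (fun t => C t / C 0) m =
      XX C m / C 0 ^ (8 / 5 : ℝ) := by
    intro C h0 h m
    unfold XX
    rw [Finset.sum_div]
    refine Finset.sum_congr rfl fun t _ => ?_
    dsimp only
    rw [Real.div_rpow (h0 t) h.le, mul_div_assoc]
  have key := oneD_norm m n (fun t => C t / C 0) (fun t => D t / D 0)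
    (fun s => M s / (C 0 * D 0)) (fun t => div_nonneg (hC0 t) hc.le)
    (fun t => div_nonneg (hD0 t) hd.le) (fun t => (div_le_one hc).2 (hCa (Nat.zero_le t)))
    (fun t => (div_le_one hd).2 (hDa (Nat.zero_le t))) (div_self hc.ne') (div_self hd.ne')
    (fun t ht j hj => by
      have := hM t ht j hj
      rw [div_mul_div_comm]
      gcongr)
  rw [hsc C hC0 hc, hsc D hD0 hd, ← Finset.sum_div, le_div_iff₀ (by positivity)] at key
  refine le_trans (le_of_eq ?_) key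
  have hx := XX_nonneg C hC0 (m + 1)
  have hy := XX_nonneg D hD0 (n + 1)
  rw [div_mul_div_comm, ← Real.mul_rpow hc.le hd.le, Real.div_rpow (by positivity) (by positivity),
    ← Real.rpow_mul (by positivity)]
  have : (C 0 * D 0) ^ ((8 / 5 : ℝ) * (5 / 8)) = C 0 * D 0 := by
    rw [show (8 / 5 : ℝ) * (5 / 8) = 1 by norm_num, Real.rpow_one]
  rw [this]
  field_simp

end Pool.Agent.U685.DF
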