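import Mathlib
import Pool.Agent.U685.DF.OneD

/-!
Decreasing rearrangements of functions on finite sets.
-/

namespace Pool.Agent.U685.DF

open Finset
open scoped Pointwise

/-- An enumeration of a finite set along which a function is antitone. -/
lemma exists_enum {ι : Type*} (P : Finset ι) (c : ι → ℝ) :
    ∃ p : Fin P.card ≃ P, Antitone (fun k => c (p k).1) := by
  obtain ⟨e⟩ : Nonempty (Fin P.card ≃ P) := ⟨P.equivFin.symm⟩
  refine ⟨(Tuple.sort (fun k => - c (e k).1)).trans e, ?_⟩
  intro a b hab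
  have := Tuple.monotone_sort (fun k => - c (e k).1) hab
  simp only [Function.comp_apply] at this
  simp only [Equiv.trans_apply]
  linarith

lemma fin_le_of_strictMono {m : ℕ} (g : Fin m → ℕ) (hg : StrictMono g) (k : Fin m) :
    k.1 ≤ g k := by
  obtain ⟨k, hk⟩ := k
  induction k with
  | zero => exact Nat.zero_le _
  | succ k ih =>
    have h1 := ih (by omega)
    have h2 : g ⟨k, by omega⟩ < g ⟨k + 1, hk⟩ := hg (by simp [Fin.lt_def])
    dsimp only at h1 ⊢
    omega

lemma exists_sorted {ι : Type*} (P : Finset ι) (c : ι → ℝ) (hc : ∀ i ∈ P, 0 ≤ c i) :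
    ∃ C : ℕ → ℝ, Antitone C ∧ (∀ t, 0 ≤ C t) ∧
      (∀ (k : ℕ) (S : Finset ι) (v : ℝ), S ⊆ P → k + 1 ≤ S.card → (∀ i ∈ S, v ≤ c i) →
        v ≤ C k) ∧
      (∀ t < P.card, ∃ S ⊆ P, S.card = t + 1 ∧ ∀ i ∈ S, C t ≤ c i) ∧
      (∑ i ∈ P, c i = ∑ t ∈ range P.card, C t) ∧
      (∀ (w : ℕ → ℝ) (ρ : ι → ℕ), Antitone w → (∀ k, 0 ≤ w k) → Set.InjOn ρ P →
        ∑ i ∈ P, w (ρ i) * c i ≤ ∑ t ∈ range P.card, w t * C t) := by
  classical
  obtain ⟨p, hp⟩ := exists_enum P c
  obtain ⟨C, hC⟩ : ∃ C : ℕ → ℝ, C = fun t => if h : t < P.card then c (p ⟨t, h⟩).1 else 0 :=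
    ⟨_, rfl⟩
  have hC1 : ∀ t (h : t < P.card), C t = c (p ⟨t, h⟩).1 := by
    intro t h; rw [hC]; dsimp only; rw [dif_pos h]
  have hC2 : ∀ t, ¬ t < P.card → C t = 0 := by
    intro t h; rw [hC]; dsimp only; rw [dif_neg h]
  have hC0 : ∀ t, 0 ≤ C t := by
    intro t
    by_cases h : t < P.card
    · rw [hC1 t h]; exact hc _ (p _).2
    · rw [hC2 t h]
  have hCk : ∀ k : Fin P.card, C k.1 = c (p k).1 := fun k => hC1 k.1 k.2
  refine ⟨C, ?_, hC0, ?_, ?_, ?_, ?_⟩
  · intro a b hab
    by_cases hb : b < P.card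
    · rw [hC1 b hb, hC1 a (lt_of_le_of_lt hab hb)]
      exact hp (by simpa [Fin.le_def] using hab)
    · rw [hC2 b hb]; exact hC0 a
  · intro k S v hS hk hv
    have hkP : k < P.card := lt_of_lt_of_le (Nat.lt_of_succ_le hk) (Finset.card_le_card hS)
    by_contra hcon
    rw [not_le, hC1 k hkP] at hcon
    have : S.card ≤ k := by
      have h1 : ∀ i ∈ S, (if h : i ∈ P then (p.symm ⟨i, h⟩).1 else 0) ∈ range k := by
        intro i hi
        rw [dif_pos (hS hi), Finset.mem_range]
        by_contra h2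
        have h3 : c (p (p.symm ⟨i, hS hi⟩)).1 ≤ c (p ⟨k, hkP⟩).1 :=
          hp (by rw [Fin.le_def]; simpa using h2)
        rw [Equiv.apply_symm_apply] at h3
        have := hv i hi
        dsimp only at h3
        linarith
      have h2 := Finset.card_le_card_of_injOn _ h1 (by
        intro i hi j hj hij
        have hi' := hS (Finset.mem_coe.1 hi)
        have hj' := hS (Finset.mem_coe.1 hj)
        simp only [dif_pos hi', dif_pos hj'] at hij
        have := p.symm.injective (Fin.ext hij)
        exact congrArg Subtype.val this)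
      rwa [Finset.card_range] at h2
    omega
  · intro t ht
    refine ⟨Finset.univ.image fun k : Fin (t + 1) => (p ⟨k.1, by omega⟩).1, ?_, ?_, ?_⟩
    · intro i hi
      obtain ⟨k, _, rfl⟩ := Finset.mem_image.1 hi
      exact (p _).2
    · rw [Finset.card_image_of_injective, Finset.card_univ, Fintype.card_fin]
      intro a b hab
      have := p.injective (Subtype.ext hab)
      simp only [Fin.mk.injEq] at this
      exact Fin.ext this
    · intro i hi
      obtain ⟨k, _, rfl⟩ := Finset.mem_image.1 hi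
      rw [hC1 t ht]
      exact hp (by rw [Fin.le_def]; dsimp only; omega)
  · rw [← Finset.sum_coe_sort P c, ← Fin.sum_univ_eq_sum_range, ← Equiv.sum_comp p]
    exact Finset.sum_congr rfl fun k _ => (hCk k).symm
  · intro w ρ hw hw0 hρ
    obtain ⟨r, hr⟩ := exists_enum P (fun i => -(ρ i : ℝ))
    have hrs : StrictMono (fun k => ρ (r k).1) := by
      intro a b hab
      have h1 := hr hab.le
      dsimp only at h1
      have h2 : ρ (r a).1 ≤ ρ (r b).1 := by
        have : (ρ (r a).1 : ℝ) ≤ ρ (r b).1 := by linarith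
        exact_mod_cast this
      have h3 : ρ (r a).1 ≠ ρ (r b).1 := by
        intro h
        have h4 := hρ (r a).2 (r b).2 h
        exact hab.ne (r.injective (Subtype.ext h4))
      dsimp only
      omega
    have hk := fin_le_of_strictMono _ hrs
    have e1 : ∑ i ∈ P, w (ρ i) * c i = ∑ k : Fin P.card, w (ρ (r k).1) * c (r k).1 := by
      rw [← Finset.sum_coe_sort P (fun i => w (ρ i) * c i), ← Equiv.sum_comp r]
    have e2 : ∑ t ∈ range P.card, w t * C t = ∑ k : Fin P.card, w k.1 * c (p k).1 := by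
      rw [← Fin.sum_univ_eq_sum_range (fun t => w t * C t)]
      exact Finset.sum_congr rfl fun k _ => by rw [hCk k]
    rw [e1, e2]
    have h1 : ∑ k : Fin P.card, w (ρ (r k).1) * c (r k).1 ≤
        ∑ k : Fin P.card, w k.1 * c (r k).1 :=
      Finset.sum_le_sum fun k _ => mul_le_mul_of_nonneg_right (hw (hk k)) (hc _ (r k).2)
    refine h1.trans ?_
    have h2 : Monovary (fun k : Fin P.card => w k.1) (fun k => c (p k).1) := by
      intro i j hij
      by_contra hcon
      rw [not_le] at hcon
      have h3 : ¬ i ≤ j := by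
        intro h
        have := hp h
        dsimp only at this hij
        linarith
      have h4 : j ≤ i := le_of_lt (not_le.1 h3)
      have := hw (show j.1 ≤ i.1 from h4)
      dsimp only at hcon
      linarith
    have h3 := h2.sum_mul_comp_perm_le_sum_mul (σ := r.trans p.symm)
    simpa using h3

end Pool.Agent.U685.DF
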