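import Mathlib
import Pool.Agent.U685.DF.Sorted

/-!
The inductive step: from `H` to `ℤ × H`.
-/

namespace Pool.Agent.U685.DF

open Finset
open scoped Pointwise

variable {H : Type*} [DecidableEq H]

/-- The fibre of `A` over `i`. -/
def fib (A : Finset (ℤ × H)) (i : ℤ) : Finset H := (A.filter fun a => a.1 = i).image Prod.snd

lemma mem_fib {A : Finset (ℤ × H)} {i : ℤ} {x : H} : x ∈ fib A i ↔ (i, x) ∈ A := by
  unfold fib
  rw [Finset.mem_image]
  constructor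
  · rintro ⟨a, ha, rfl⟩
    obtain ⟨h1, rfl⟩ := Finset.mem_filter.1 ha
    exact h1
  · intro h
    exact ⟨(i, x), Finset.mem_filter.2 ⟨h, rfl⟩, rfl⟩

lemma sum_fib (A : Finset (ℤ × H)) (g : ℤ × H → ℝ) :
    ∑ a ∈ A, g a = ∑ i ∈ A.image Prod.fst, ∑ b ∈ fib A i, g (i, b) := by
  rw [← Finset.sum_fiberwise_of_maps_to (g := Prod.fst) (t := A.image Prod.fst)
    (fun a ha => Finset.mem_image_of_mem _ ha)]
  refine Finset.sum_congr rfl fun i _ => ?_
  unfold fib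
  rw [Finset.sum_image]
  · refine Finset.sum_congr rfl fun a ha => ?_
    obtain ⟨_, h⟩ := Finset.mem_filter.1 ha
    rw [← h]
  · intro a ha b hb hab
    have h1 := (Finset.mem_filter.1 ha).2
    have h2 := (Finset.mem_filter.1 hb).2
    exact Prod.ext (h1.trans h2.symm) hab

lemma card_fib (A : Finset (ℤ × H)) :
    (A.card : ℝ) = ∑ i ∈ A.image Prod.fst, ((fib A i).card : ℝ) := by
  have := sum_fib A (fun _ => 1)
  simpa using this

variable [AddCommGroup H]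

lemma fib_add (A B : Finset (ℤ × H)) (i j : ℤ) : fib A i + fib B j ⊆ fib (A + B) (i + j) := by
  intro x hx
  obtain ⟨a, ha, b, hb, rfl⟩ := Finset.mem_add.1 hx
  rw [mem_fib] at ha hb ⊢
  exact Finset.mem_add.2 ⟨_, ha, _, hb, rfl⟩

theorem step (A B : Finset (ℤ × H)) (hA : A.Nonempty) (hB : B.Nonempty) (S T : ℤ → ℝ)
    (hS : ∀ i ∈ A.image Prod.fst, 0 ≤ S i) (hT : ∀ i ∈ B.image Prod.fst, 0 ≤ T i)
    (ρ τ : ℤ → ℕ) (hρ : Set.InjOn ρ (A.image Prod.fst)) (hτ : Set.InjOn τ (B.image Prod.fst))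
    (h : ∀ i ∈ A.image Prod.fst, ∀ j ∈ B.image Prod.fst,
      (S i * T j) ^ (5 / 8 : ℝ) ≤ ((fib A i + fib B j).card : ℝ)) :
    ((∑ i ∈ A.image Prod.fst, wt (ρ i) * S i) * (∑ j ∈ B.image Prod.fst, wt (τ j) * T j)) ^
      (5 / 8 : ℝ) ≤ ((A + B).card : ℝ) := by
  obtain ⟨P, hP⟩ : ∃ P, P = A.image Prod.fst := ⟨_, rfl⟩
  obtain ⟨Q, hQ⟩ : ∃ Q, Q = B.image Prod.fst := ⟨_, rfl⟩
  obtain ⟨R, hR⟩ : ∃ R, R = (A + B).image Prod.fst := ⟨_, rfl⟩
  rw [← hP] at hS hρ h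
  rw [← hQ] at hT hτ h
  rw [← hP, ← hQ]
  have hPn : P.Nonempty := by rw [hP]; exact hA.image _
  have hQn : Q.Nonempty := by rw [hQ]; exact hB.image _
  have hPQ : P + Q = R := by
    rw [hP, hQ, hR]
    ext x
    simp only [Finset.mem_add, Finset.mem_image]
    constructor
    · rintro ⟨_, ⟨a, ha, rfl⟩, _, ⟨b, hb, rfl⟩, rfl⟩
      exact ⟨a + b, ⟨a, ha, b, hb, rfl⟩, rfl⟩
    · rintro ⟨_, ⟨a, ha, b, hb, rfl⟩, rfl⟩
      exact ⟨_, ⟨a, ha, rfl⟩, _, ⟨b, hb, rfl⟩, rfl⟩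
  obtain ⟨C, hCa, hC0, -, hCs, -, hCr⟩ := exists_sorted P S hS
  obtain ⟨D, hDa, hD0, -, hDs, -, hDr⟩ := exists_sorted Q T hT
  obtain ⟨F, hFa, hF0, hFk, -, hFs, -⟩ := exists_sorted R (fun s => ((fib (A + B) s).card : ℝ))
    (fun _ _ => Nat.cast_nonneg _)
  obtain ⟨m, hm⟩ : ∃ m, P.card = m + 1 := ⟨P.card - 1, by
    have := hPn.card_pos; omega⟩
  obtain ⟨n, hn⟩ : ∃ n, Q.card = n + 1 := ⟨Q.card - 1, by
    have := hQn.card_pos; omega⟩
  have hcd : ∀ X Y : Finset ℤ, X.Nonempty → Y.Nonempty → X.card + Y.card - 1 ≤ (X + Y).card :=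
    fun X Y hX hY => cauchy_davenport_add_of_linearOrder_isCancelAdd hX hY
  have key := oneD m n (fun t => C t ^ (5 / 8 : ℝ)) (fun t => D t ^ (5 / 8 : ℝ)) F
    (fun a b hab => Real.rpow_le_rpow (hC0 b) (hCa hab) (by norm_num))
    (fun a b hab => Real.rpow_le_rpow (hD0 b) (hDa hab) (by norm_num))
    (fun t => Real.rpow_nonneg (hC0 t) _) (fun t => Real.rpow_nonneg (hD0 t) _) (by
      intro t ht j hj
      obtain ⟨S1, hS1, hS2, hS3⟩ := hCs t (by omega)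
      obtain ⟨T1, hT1, hT2, hT3⟩ := hDs j (by omega)
      have hS1n : S1.Nonempty := Finset.card_pos.1 (by omega)
      have hT1n : T1.Nonempty := Finset.card_pos.1 (by omega)
      refine hFk (t + j) (S1 + T1) _ ?_ ?_ ?_
      · rw [← hPQ]; exact Finset.add_subset_add hS1 hT1
      · have := hcd S1 T1 hS1n hT1n
        omega
      · intro s hs
        obtain ⟨i, hi, i', hi', rfl⟩ := Finset.mem_add.1 hs
        have h1 := h i (hS1 hi) i' (hT1 hi')
        have h2 : ((fib A i + fib B i').card : ℝ) ≤ ((fib (A + B) (i + i')).card : ℝ) := by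
          exact_mod_cast Finset.card_le_card (fib_add A B i i')
        refine le_trans ?_ (h1.trans h2)
        rw [← Real.mul_rpow (hC0 t) (hD0 j)]
        apply Real.rpow_le_rpow (mul_nonneg (hC0 t) (hD0 j)) _ (by norm_num)
        exact mul_le_mul (hS3 i hi) (hT3 i' hi') (hD0 j) (hS i (hS1 hi)))
  have hXX : ∀ (C : ℕ → ℝ), (∀ t, 0 ≤ C t) → ∀ m, XX (fun t => C t ^ (5 / 8 : ℝ)) m =
      ∑ t ∈ range m, wt t * C t := by
    intro C hC m
    unfold XX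
    refine Finset.sum_congr rfl fun t _ => ?_
    rw [← Real.rpow_mul (hC t)]
    norm_num
  rw [hXX C hC0, hXX D hD0, ← hm, ← hn] at key
  have hR1 : m + n + 1 ≤ R.card := by
    have := hcd P Q hPn hQn
    rw [hPQ] at this
    omega
  have h2 : ∑ s ∈ range (m + n + 1), F s ≤ ((A + B).card : ℝ) := by
    rw [card_fib (A + B), ← hR, hFs]
    exact Finset.sum_le_sum_of_subset_of_nonneg (Finset.range_mono hR1) fun s _ _ => hF0 s
  refine le_trans ?_ (key.trans h2)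
  have h3 := hCr wt ρ wt_anti (fun k => (wt_pos k).le) hρ
  have h4 := hDr wt τ wt_anti (fun k => (wt_pos k).le) hτ
  have h5 : 0 ≤ ∑ i ∈ P, wt (ρ i) * S i :=
    Finset.sum_nonneg fun i hi => mul_nonneg (wt_pos _).le (hS i hi)
  have h6 : 0 ≤ ∑ i ∈ Q, wt (τ i) * T i :=
    Finset.sum_nonneg fun i hi => mul_nonneg (wt_pos _).le (hT i hi)
  exact Real.rpow_le_rpow (mul_nonneg h5 h6) (mul_le_mul h3 h4 h6 (h5.trans h3)) (by norm_num)

end Pool.Agent.U685.DF
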