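import Mathlib
import Pool.Agent.U685.DF.Step

/-!
A dimension-free lower bound for sumsets in `ℤ ^ d × G`.
-/

namespace Pool.Agent.U685.DF

open Finset
open scoped Pointwise

variable {G : Type*} [AddCommGroup G] [DecidableEq G]

/-- `ρ i` labels the `i`-th coordinates of the points of `A`: among points of `A` with the same
earlier coordinates, equal labels mean equal `i`-th coordinates. -/
def Labels {d : ℕ} (A : Finset ((Fin d → ℤ) × G)) (ρ : Fin d → (Fin d → ℤ) → ℕ) : Prop :=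
  ∀ a ∈ A, ∀ b ∈ A, ∀ i, (∀ j < i, a.1 j = b.1 j) → (ρ i a.1 = ρ i b.1 ↔ a.1 i = b.1 i)

/-- The number of points of `A` over `x`. -/
def cnt {d : ℕ} (A : Finset ((Fin d → ℤ) × G)) (x : Fin d → ℤ) : ℕ :=
  (A.filter fun b => b.1 = x).card

/-- The weight of `A`. -/
noncomputable def Wt {d : ℕ} (A : Finset ((Fin d → ℤ) × G)) (ρ : Fin d → (Fin d → ℤ) → ℕ) : ℝ :=
  ∑ a ∈ A, (∏ i, wt (ρ i a.1)) * (cnt A a.1 : ℝ) ^ (-(1 / 5) : ℝ)

lemma Wt_nonneg {d : ℕ} (A : Finset ((Fin d → ℤ) × G)) (ρ : Fin d → (Fin d → ℤ) → ℕ) :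
    0 ≤ Wt A ρ :=
  Finset.sum_nonneg fun a _ => mul_nonneg (Finset.prod_nonneg fun i _ => (wt_pos _).le)
    (Real.rpow_nonneg (Nat.cast_nonneg _) _)

/-- Splitting off the first coordinate. -/
def spl (d : ℕ) (G : Type*) [AddCommGroup G] :
    (Fin (d + 1) → ℤ) × G ≃+ ℤ × ((Fin d → ℤ) × G) where
  toFun a := (a.1 0, (Fin.tail a.1, a.2))
  invFun b := (Fin.cons b.1 b.2.1, b.2.2)
  left_inv a := by simp [Fin.cons_self_tail]
  right_inv b := by simp [Fin.tail_cons]
  map_add' a b := rfl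

lemma mem_fib_spl {d : ℕ} (A : Finset ((Fin (d + 1) → ℤ) × G)) (i : ℤ) (b : (Fin d → ℤ) × G) :
    b ∈ fib (A.image (spl d G)) i ↔ ((Fin.cons i b.1 : Fin (d + 1) → ℤ), b.2) ∈ A := by
  rw [mem_fib, Finset.mem_image]
  constructor
  · rintro ⟨a, ha, h⟩
    have : a = (spl d G).symm (i, b) := by rw [← h, AddEquiv.symm_apply_apply]
    rw [this] at ha
    exact ha
  · intro h
    exact ⟨_, h, (spl d G).apply_symm_apply (i, b)⟩

lemma Wt_succ {d : ℕ} (A : Finset ((Fin (d + 1) → ℤ) × G)) (ρ : Fin (d + 1) → (Fin (d + 1) → ℤ) → ℕ)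
    (hρ : Labels A ρ) : ∃ r : ℤ → ℕ, Set.InjOn r ((A.image (spl d G)).image Prod.fst) ∧
      Wt A ρ = ∑ i ∈ (A.image (spl d G)).image Prod.fst, wt (r i) *
        Wt (fib (A.image (spl d G)) i) (fun k x => ρ k.succ (Fin.cons i x)) ∧
      ∀ i, Labels (fib (A.image (spl d G)) i) (fun k x => ρ k.succ (Fin.cons i x)) := by
  classical
  have hex : ∀ i ∈ (A.image (spl d G)).image Prod.fst, ∃ a ∈ A, a.1 0 = i := by
    intro i hi
    obtain ⟨b, hb, rfl⟩ := Finset.mem_image.1 hi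
    obtain ⟨a, ha, rfl⟩ := Finset.mem_image.1 hb
    exact ⟨a, ha, rfl⟩
  obtain ⟨r, hr⟩ : ∃ r : ℤ → ℕ, r = fun i => if h : ∃ a ∈ A, a.1 0 = i then ρ 0 h.choose.1 else 0 :=
    ⟨_, rfl⟩
  have hr1 : ∀ a ∈ A, r (a.1 0) = ρ 0 a.1 := by
    intro a ha
    have h : ∃ b ∈ A, b.1 0 = a.1 0 := ⟨a, ha, rfl⟩
    rw [hr]
    dsimp only
    rw [dif_pos h]
    exact (hρ _ h.choose_spec.1 _ ha 0 (fun j hj => absurd hj (Fin.not_lt_zero j))).2
      h.choose_spec.2
  refine ⟨r, ?_, ?_, ?_⟩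
  · intro i hi j hj hij
    obtain ⟨a, ha, rfl⟩ := hex i (Finset.mem_coe.1 hi)
    obtain ⟨b, hb, rfl⟩ := hex j (Finset.mem_coe.1 hj)
    rw [hr1 a ha, hr1 b hb] at hij
    exact (hρ a ha b hb 0 (fun j hj => absurd hj (Fin.not_lt_zero j))).1 hij
  · have h1 : Wt A ρ = ∑ a ∈ A.image (spl d G),
        (∏ i, wt (ρ i ((spl d G).symm a).1)) *
          (cnt A ((spl d G).symm a).1 : ℝ) ^ (-(1 / 5) : ℝ) := by
      rw [Finset.sum_image (fun a _ b _ hab => (spl d G).injective hab)]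
      unfold Wt
      refine Finset.sum_congr rfl fun a _ => ?_
      rw [AddEquiv.symm_apply_apply]
    rw [h1, sum_fib]
    refine Finset.sum_congr rfl fun i hi => ?_
    unfold Wt
    rw [Finset.mul_sum]
    refine Finset.sum_congr rfl fun b hb => ?_
    have hb' := (mem_fib_spl A i b).1 hb
    have e1 : ((spl d G).symm (i, b)).1 = Fin.cons i b.1 := rfl
    rw [e1, Fin.prod_univ_succ]
    have e2 : r i = ρ 0 (Fin.cons i b.1 : Fin (d + 1) → ℤ) := hr1 _ hb'
    have e3 : cnt A (Fin.cons i b.1 : Fin (d + 1) → ℤ) = cnt (fib (A.image (spl d G)) i) b.1 := by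
      unfold cnt
      symm
      apply Finset.card_bij (fun c _ => ((Fin.cons i c.1 : Fin (d + 1) → ℤ), c.2))
      · intro c hc
        obtain ⟨h2, h3⟩ := Finset.mem_filter.1 hc
        rw [Finset.mem_filter]
        exact ⟨(mem_fib_spl A i c).1 h2, by rw [h3]⟩
      · intro c hc c' hc' h
        have h2 := congrArg Prod.fst h
        have h3 := congrArg Prod.snd h
        exact Prod.ext ((Fin.cons_right_injective (α := fun _ => ℤ) i) h2) h3
      · intro c hc
        obtain ⟨h2, h3⟩ := Finset.mem_filter.1 hc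
        refine ⟨(b.1, c.2), ?_, ?_⟩
        · rw [Finset.mem_filter, mem_fib_spl]
          refine ⟨?_, rfl⟩
          rw [← h3]
          exact h2
        · exact Prod.ext h3.symm rfl
    rw [e3, e2, mul_assoc]
  · intro i a ha b hb k hk
    have ha' := (mem_fib_spl A i a).1 ha
    have hb' := (mem_fib_spl A i b).1 hb
    have := hρ _ ha' _ hb' k.succ (fun j hj => by
      refine Fin.cases ?_ (fun j' => ?_) j hj
      · intro _; rfl
      · intro h
        exact hk j' (Fin.succ_lt_succ_iff.1 h))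
    simpa using this

theorem main (d : ℕ) : ∀ (A B : Finset ((Fin d → ℤ) × G)), A.Nonempty → B.Nonempty →
    ∀ (ρ τ : Fin d → (Fin d → ℤ) → ℕ), Labels A ρ → Labels B τ →
    (Wt A ρ * Wt B τ) ^ (5 / 8 : ℝ) ≤ ((A + B).card : ℝ) := by
  induction d with
  | zero =>
    intro A B hA hB ρ τ _ _
    have hW : ∀ (A : Finset ((Fin 0 → ℤ) × G)) (ρ : Fin 0 → (Fin 0 → ℤ) → ℕ), A.Nonempty →
        Wt A ρ = (A.card : ℝ) ^ (4 / 5 : ℝ) := by
      intro A ρ hA
      have h0 : (0 : ℝ) < A.card := by exact_mod_cast hA.card_pos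
      unfold Wt
      have : ∀ a ∈ A, (∏ i, wt (ρ i a.1)) * (cnt A a.1 : ℝ) ^ (-(1 / 5) : ℝ) =
          (A.card : ℝ) ^ (-(1 / 5) : ℝ) := by
        intro a _
        have h1 : cnt A a.1 = A.card := by
          unfold cnt
          rw [Finset.filter_true_of_mem]
          intro b _
          exact Subsingleton.elim _ _
        rw [h1]
        simp
      rw [Finset.sum_congr rfl this, Finset.sum_const, nsmul_eq_mul]
      nth_rewrite 1 [← Real.rpow_one (A.card : ℝ)]
      rw [← Real.rpow_add h0]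
      norm_num
    rw [hW A ρ hA, hW B τ hB]
    have h1 : (A.card : ℝ) ≤ (A + B).card := by
      exact_mod_cast Finset.card_le_card_add_right hB
    have h2 : (B.card : ℝ) ≤ (A + B).card := by
      exact_mod_cast Finset.card_le_card_add_left hA
    have ha : (0 : ℝ) ≤ A.card := Nat.cast_nonneg _
    have hb : (0 : ℝ) ≤ B.card := Nat.cast_nonneg _
    rw [← Real.mul_rpow ha hb, ← Real.rpow_mul (mul_nonneg ha hb)]
    have h3 : ((4 / 5 : ℝ) * (5 / 8)) = 1 / 2 := by norm_num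
    rw [h3, ← Real.sqrt_eq_rpow]
    apply Real.sqrt_le_iff.2
    refine ⟨Nat.cast_nonneg _, ?_⟩
    nlinarith
  | succ d ih =>
    intro A B hA hB ρ τ hρ hτ
    obtain ⟨r, hr1, hr2, hr3⟩ := Wt_succ A ρ hρ
    obtain ⟨s, hs1, hs2, hs3⟩ := Wt_succ B τ hτ
    rw [hr2, hs2]
    have hcard : (A + B).card = (A.image (spl d G) + B.image (spl d G)).card := by
      rw [← Finset.image_add, Finset.card_image_of_injective _ (spl d G).injective]
    rw [hcard]
    have hne : ∀ (A : Finset ((Fin (d + 1) → ℤ) × G)), ∀ i ∈ (A.image (spl d G)).image Prod.fst,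
        (fib (A.image (spl d G)) i).Nonempty := by
      intro A i hi
      obtain ⟨b, hb, rfl⟩ := Finset.mem_image.1 hi
      exact ⟨b.2, mem_fib.2 hb⟩
    apply step _ _ (hA.image _) (hB.image _) _ _ (fun i _ => Wt_nonneg _ _)
      (fun i _ => Wt_nonneg _ _) r s hr1 hs1
    intro i hi j hj
    exact ih _ _ (hne A i hi) (hne B j hj) _ _ (hr3 i) (hs3 j)

end Pool.Agent.U685.DF
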