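import Mathlib
import Pool.Agent.U685.DF.Main

/-!
Consequences of the dimension-free sumset inequality.
-/

namespace Pool.Agent.U685.DF

open Finset
open scoped Pointwise

variable {Γ : Type*} [AddCommGroup Γ] [DecidableEq Γ]

/-- `ρ` labels the coordinates of `f` on `A`: for points of `A` with the same earlier coordinates,
equal labels of the `i`-th coordinate mean equal `i`-th coordinates. -/
def Labelling {Γ : Type*} {d : ℕ} (A : Finset Γ) (f : Γ → Fin d → ℤ) (ρ : Fin d → Γ → ℕ) : Prop :=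
  ∀ a ∈ A, ∀ b ∈ A, ∀ i, (∀ j < i, f a j = f b j) → (ρ i a = ρ i b ↔ f a i = f b i)

/-- The size of `a`: the product of all `ρ i a + 1` and of the number of points of `A` with the
same coordinates. -/
def size {Γ : Type*} {d : ℕ} (A : Finset Γ) (f : Γ → Fin d → ℤ) (ρ : Fin d → Γ → ℕ) (a : Γ) : ℕ :=
  (∏ i, (ρ i a + 1)) * (A.filter fun b => f b = f a).card

/-- `f` and `g` are compatible with the sums of `A` and `B`. -/
def Compat {Γ : Type*} [AddCommGroup Γ] {d : ℕ} (A B : Finset Γ) (f g : Γ → Fin d → ℤ) : Prop :=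
  ∀ a ∈ A, ∀ b ∈ B, ∀ a' ∈ A, ∀ b' ∈ B, a + b = a' + b' → f a + g b = f a' + g b'

omit [AddCommGroup Γ] [DecidableEq Γ] in
lemma size_pos {d : ℕ} (A : Finset Γ) (f : Γ → Fin d → ℤ) (ρ : Fin d → Γ → ℕ) (a : Γ)
    (ha : a ∈ A) : 0 < size A f ρ a := by
  unfold size
  apply Nat.mul_pos
  · exact Finset.prod_pos fun i _ => Nat.succ_pos _
  · exact Finset.card_pos.2 ⟨a, Finset.mem_filter.2 ⟨ha, rfl⟩⟩

omit [AddCommGroup Γ] in
lemma exists_weight {d : ℕ} (A : Finset Γ) (f : Γ → Fin d → ℤ) (ρ : Fin d → Γ → ℕ)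
    (hρ : Labelling A f ρ) : ∃ ρ' : Fin d → (Fin d → ℤ) → ℕ,
      Labels (A.image fun a => (f a, a)) ρ' ∧
      Wt (A.image fun a => (f a, a)) ρ' = ∑ a ∈ A, (size A f ρ a : ℝ) ^ (-(1 / 5) : ℝ) := by
  classical
  obtain ⟨ρ', hρ'⟩ : ∃ ρ' : Fin d → (Fin d → ℤ) → ℕ,
    ρ' = fun i x => if h : ∃ a ∈ A, f a = x then ρ i h.choose else 0 := ⟨_, rfl⟩
  have h1 : ∀ a ∈ A, ∀ i, ρ' i (f a) = ρ i a := by
    intro a ha i
    have h : ∃ b ∈ A, f b = f a := ⟨a, ha, rfl⟩
    rw [hρ']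
    dsimp only
    rw [dif_pos h]
    have h2 := h.choose_spec
    exact (hρ _ h2.1 a ha i (fun j _ => by rw [h2.2])).2 (by rw [h2.2])
  refine ⟨ρ', ?_, ?_⟩
  · intro x hx y hy i hi
    obtain ⟨a, ha, rfl⟩ := Finset.mem_image.1 hx
    obtain ⟨b, hb, rfl⟩ := Finset.mem_image.1 hy
    dsimp only at hi ⊢
    rw [h1 a ha, h1 b hb]
    exact hρ a ha b hb i hi
  · unfold Wt
    rw [Finset.sum_image (fun a _ b _ hab => congrArg Prod.snd hab)]
    refine Finset.sum_congr rfl fun a ha => ?_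
    dsimp only
    have h2 : cnt (A.image fun a => (f a, a)) (f a) = (A.filter fun b => f b = f a).card := by
      unfold cnt
      rw [Finset.filter_image, Finset.card_image_of_injective _
        (fun a b hab => congrArg Prod.snd hab)]
    rw [h2]
    have h3 : ∏ i, wt (ρ' i (f a)) = ((∏ i, (ρ i a + 1) : ℕ) : ℝ) ^ (-(1 / 5) : ℝ) := by
      push_cast
      rw [← Real.finsetProd_rpow _ _ (fun i _ => by positivity)]
      refine Finset.prod_congr rfl fun i _ => ?_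
      rw [h1 a ha]
      rfl
    rw [h3, ← Real.mul_rpow (Nat.cast_nonneg _) (Nat.cast_nonneg _)]
    unfold size
    push_cast
    rfl

/-- The main inequality for functions to `ℤ ^ d` on subsets of a group. -/
theorem main_ineq {d : ℕ} (A B : Finset Γ) (hA : A.Nonempty) (hB : B.Nonempty)
    (f g : Γ → Fin d → ℤ) (ρ τ : Fin d → Γ → ℕ) (hfg : Compat A B f g)
    (hρ : Labelling A f ρ) (hτ : Labelling B g τ) :
    (∑ a ∈ A, (size A f ρ a : ℝ) ^ (-(1 / 5) : ℝ)) *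
      (∑ b ∈ B, (size B g τ b : ℝ) ^ (-(1 / 5) : ℝ)) ≤ ((A + B).card : ℝ) ^ (8 / 5 : ℝ) := by
  obtain ⟨ρ', h1, h2⟩ := exists_weight A f ρ hρ
  obtain ⟨τ', h3, h4⟩ := exists_weight B g τ hτ
  have key := main d _ _ (hA.image _) (hB.image _) ρ' τ' h1 h3
  have hcard : ((A.image fun a => (f a, a)) + (B.image fun a => (g a, a))).card ≤
      (A + B).card := by
    apply Finset.card_le_card_of_injOn Prod.snd
    · intro x hx
      obtain ⟨y, hy, z, hz, rfl⟩ := Finset.mem_add.1 (Finset.mem_coe.1 hx)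
      obtain ⟨a, ha, rfl⟩ := Finset.mem_image.1 hy
      obtain ⟨b, hb, rfl⟩ := Finset.mem_image.1 hz
      exact Finset.mem_coe.2 (Finset.add_mem_add ha hb)
    · intro x hx x' hx' h
      obtain ⟨y, hy, z, hz, rfl⟩ := Finset.mem_add.1 (Finset.mem_coe.1 hx)
      obtain ⟨a, ha, rfl⟩ := Finset.mem_image.1 hy
      obtain ⟨b, hb, rfl⟩ := Finset.mem_image.1 hz
      obtain ⟨y', hy', z', hz', rfl⟩ := Finset.mem_add.1 (Finset.mem_coe.1 hx')
      obtain ⟨a', ha', rfl⟩ := Finset.mem_image.1 hy'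
      obtain ⟨b', hb', rfl⟩ := Finset.mem_image.1 hz'
      exact Prod.ext (hfg a ha b hb a' ha' b' hb' h) h
  have hcard' : (((A.image fun a => (f a, a)) + (B.image fun a => (g a, a))).card : ℝ) ≤
      (A + B).card := by exact_mod_cast hcard
  rw [h2, h4] at key
  have hX : 0 ≤ ∑ a ∈ A, (size A f ρ a : ℝ) ^ (-(1 / 5) : ℝ) := by rw [← h2]; exact Wt_nonneg _ _
  have hY : 0 ≤ ∑ a ∈ B, (size B g τ a : ℝ) ^ (-(1 / 5) : ℝ) := by rw [← h4]; exact Wt_nonneg _ _
  have h5 := Real.rpow_le_rpow (by positivity) (key.trans hcard') (by norm_num : (0 : ℝ) ≤ 8 / 5)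
  rw [← Real.rpow_mul (mul_nonneg hX hY)] at h5
  norm_num at h5 ⊢
  exact h5

/-- In a set with small doubling most points have large size. -/
theorem small_doubling {d : ℕ} (A : Finset Γ) (hA : A.Nonempty) (f : Γ → Fin d → ℤ)
    (ρ : Fin d → Γ → ℕ) (hf : Compat A A f f) (hρ : Labelling A f ρ) (K L : ℝ) (hL : 0 < L)
    (hK : ((A + A).card : ℝ) ≤ K * A.card) :
    L * ((A.filter fun a => (size A f ρ a : ℝ) < A.card / (L ^ 5 * K ^ 4)).card : ℝ) < A.card := by
  have hA0 : (0 : ℝ) < A.card := by exact_mod_cast hA.card_pos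
  have hAA : (0 : ℝ) < (A + A).card := by exact_mod_cast (hA.add hA).card_pos
  have hK0 : 0 < K := by
    by_contra h
    have : K * A.card ≤ 0 := mul_nonpos_of_nonpos_of_nonneg (le_of_not_gt h) hA0.le
    linarith
  obtain ⟨bad, hbad⟩ : ∃ bad, bad = A.filter
    (fun a => (size A f ρ a : ℝ) < A.card / (L ^ 5 * K ^ 4)) := ⟨_, rfl⟩
  rw [← hbad]
  rcases bad.eq_empty_or_nonempty with h | h
  · rw [h]; simpa using hA0
  obtain ⟨X, hX⟩ : ∃ X, X = ∑ a ∈ A, (size A f ρ a : ℝ) ^ (-(1 / 5) : ℝ) := ⟨_, rfl⟩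
  have hX0 : 0 ≤ X := by
    rw [hX]; exact Finset.sum_nonneg fun a _ => Real.rpow_nonneg (Nat.cast_nonneg _) _
  have h1 := main_ineq A A hA hA f f ρ ρ hf hρ hρ
  rw [← hX] at h1
  have h2 : X ≤ (K * A.card) ^ (4 / 5 : ℝ) := by
    have h3 : X * X ≤ (K * A.card) ^ (4 / 5 : ℝ) * (K * A.card) ^ (4 / 5 : ℝ) := by
      rw [← Real.rpow_add (by positivity)]
      refine h1.trans ((Real.rpow_le_rpow hAA.le hK (by norm_num)).trans (le_of_eq ?_))
      norm_num
    exact (mul_self_le_mul_self_iff hX0 (by positivity)).2 h3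
  have h3 : (L * K ^ (4 / 5 : ℝ) * (A.card : ℝ) ^ (-(1 / 5) : ℝ)) * bad.card < X := by
    have h4 : ∀ a ∈ bad, L * K ^ (4 / 5 : ℝ) * (A.card : ℝ) ^ (-(1 / 5) : ℝ) <
        (size A f ρ a : ℝ) ^ (-(1 / 5) : ℝ) := by
      intro a ha
      rw [hbad] at ha
      obtain ⟨haA, h5⟩ := Finset.mem_filter.1 ha
      have h6 : (0 : ℝ) < size A f ρ a := by exact_mod_cast size_pos A f ρ a haA
      have h7 := Real.rpow_lt_rpow_of_neg h6 h5 (by norm_num : (-(1 / 5) : ℝ) < 0)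
      refine lt_of_eq_of_lt ?_ h7
      rw [Real.div_rpow hA0.le (by positivity), Real.mul_rpow (by positivity) (by positivity),
        ← Real.rpow_natCast L, ← Real.rpow_natCast K, ← Real.rpow_mul hL.le,
        ← Real.rpow_mul hK0.le]
      have e1 : ((5 : ℕ) : ℝ) * (-(1 / 5)) = -1 := by norm_num
      have e2 : ((4 : ℕ) : ℝ) * (-(1 / 5)) = -(4 / 5) := by norm_num
      rw [e1, e2, Real.rpow_neg hL.le, Real.rpow_one, Real.rpow_neg hK0.le]
      field_simp
    calc (L * K ^ (4 / 5 : ℝ) * (A.card : ℝ) ^ (-(1 / 5) : ℝ)) * bad.card =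
        ∑ a ∈ bad, L * K ^ (4 / 5 : ℝ) * (A.card : ℝ) ^ (-(1 / 5) : ℝ) := by
          rw [Finset.sum_const, nsmul_eq_mul]; ring
      _ < ∑ a ∈ bad, (size A f ρ a : ℝ) ^ (-(1 / 5) : ℝ) := Finset.sum_lt_sum_of_nonempty h h4
      _ ≤ X := by
          rw [hX]
          apply Finset.sum_le_sum_of_subset_of_nonneg
          · rw [hbad]; exact Finset.filter_subset _ _
          · intro a _ _; exact Real.rpow_nonneg (Nat.cast_nonneg _) _
  have h4 := lt_of_lt_of_le h3 h2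
  rw [Real.mul_rpow hK0.le hA0.le] at h4
  have h5 : (A.card : ℝ) ^ (4 / 5 : ℝ) = A.card * (A.card : ℝ) ^ (-(1 / 5) : ℝ) := by
    nth_rewrite 2 [← Real.rpow_one (A.card : ℝ)]
    rw [← Real.rpow_add hA0]
    norm_num
  rw [h5] at h4
  have h6 : (0 : ℝ) < K ^ (4 / 5 : ℝ) * (A.card : ℝ) ^ (-(1 / 5) : ℝ) := by positivity
  have h7 : (L * bad.card) * (K ^ (4 / 5 : ℝ) * (A.card : ℝ) ^ (-(1 / 5) : ℝ)) <
      A.card * (K ^ (4 / 5 : ℝ) * (A.card : ℝ) ^ (-(1 / 5) : ℝ)) := by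
    calc _ = (L * K ^ (4 / 5 : ℝ) * (A.card : ℝ) ^ (-(1 / 5) : ℝ)) * bad.card := by ring
      _ < _ := h4
      _ = _ := by ring
  exact lt_of_mul_lt_mul_right h7 h6.le

/-- The zigzag label of an integer. -/
def zig (n : ℤ) : ℕ := if 0 ≤ n then (2 * n).toNat else (-2 * n - 1).toNat

lemma zig_inj : Function.Injective zig := by
  intro a b h
  unfold zig at h
  split_ifs at h <;> omega

lemma zig_le (n : ℤ) : (zig n : ℤ) ≤ 2 * |n| := by
  unfold zig
  split_ifs with h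
  · rw [abs_of_nonneg h]; omega
  · rw [abs_of_neg (by omega)]; omega

/-- The version with centres. -/
theorem centre {d : ℕ} (A : Finset Γ) (hA : A.Nonempty) (f : Γ → Fin d → ℤ)
    (hf : Compat A A f f) (c : Fin d → ℤ) (K L : ℝ) (hL : 0 < L)
    (hK : ((A + A).card : ℝ) ≤ K * A.card) :
    L * ((A.filter fun a => ((∏ i, (2 * |f a i - c i| + 1) : ℤ) : ℝ) *
      (A.filter fun b => f b = f a).card < A.card / (L ^ 5 * K ^ 4)).card : ℝ) < A.card := by
  have hρ : Labelling A f (fun i a => zig (f a i - c i)) := by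
    intro a _ b _ i _
    rw [zig_inj.eq_iff]
    exact sub_left_inj
  refine lt_of_le_of_lt ?_ (small_doubling A hA f _ hf hρ K L hL hK)
  apply mul_le_mul_of_nonneg_left _ hL.le
  have : (A.filter fun a => ((∏ i, (2 * |f a i - c i| + 1) : ℤ) : ℝ) *
      (A.filter fun b => f b = f a).card < A.card / (L ^ 5 * K ^ 4)) ⊆
      (A.filter fun a => (size A f (fun i a => zig (f a i - c i)) a : ℝ) <
        A.card / (L ^ 5 * K ^ 4)) := by
    intro a ha
    obtain ⟨h1, h2⟩ := Finset.mem_filter.1 ha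
    refine Finset.mem_filter.2 ⟨h1, lt_of_le_of_lt ?_ h2⟩
    unfold size
    push_cast
    apply mul_le_mul_of_nonneg_right _ (Nat.cast_nonneg _)
    apply Finset.prod_le_prod
    · intro i _; positivity
    · intro i _
      have h3 := zig_le (f a i - c i)
      have h4 : ((zig (f a i - c i) : ℤ) : ℝ) ≤ ((2 * |f a i - c i| : ℤ) : ℝ) := by
        exact_mod_cast h3
      push_cast at h4
      linarith
  exact_mod_cast Finset.card_le_card this

end Pool.Agent.U685.DF
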