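import Mathlib
import Pool.Agent.U685.DF.Cor

/-!
Coordinatewise relabelled down-sets.
-/

namespace Pool.Agent.U685.DF

open Finset
open scoped Pointwise

/-- Sumsets of products. -/
lemma piFinset_add_card {d : ℕ} (P : Fin d → Finset ℤ) (S : Finset (Fin d → ℤ))
    (hP : Fintype.piFinset P ⊆ S) : ∏ i, (P i + P i).card ≤ (S + S).card := by
  rw [← Fintype.card_piFinset]
  apply Finset.card_le_card
  intro x hx
  rw [Fintype.mem_piFinset] at hx
  choose y hy z hz h using fun i => Finset.mem_add.1 (hx i)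
  have : x = y + z := by funext i; exact (h i).symm
  rw [this]
  exact Finset.add_mem_add (hP (Fintype.mem_piFinset.2 hy)) (hP (Fintype.mem_piFinset.2 hz))

theorem relabelled {d : ℕ} (D : Finset (Fin d → ℕ)) (hD : D.Nonempty)
    (hdown : ∀ y ∈ D, ∀ z, z ≤ y → z ∈ D) (h : Fin d → ℕ → ℤ)
    (hinj : ∀ i, Function.Injective (h i)) (S : Finset (Fin d → ℤ))
    (hS : S = D.image fun y i => h i (y i)) (K : ℝ) (hK : ((S + S).card : ℝ) ≤ K * S.card) :
    ∃ (P : Fin d → Finset ℤ) (T : Finset (Fin d → ℤ)), (∀ i, (P i).Nonempty) ∧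
      Fintype.piFinset P ⊆ S ∧
      (S.card : ℝ) ≤ K ^ 4 * ∏ i, ((P i).card : ℝ) ∧
      ∏ i, ((P i + P i).card : ℝ) ≤ K ^ 5 * ∏ i, ((P i).card : ℝ) ∧
      (3 / 2 : ℝ) ^ (univ.filter fun i => 2 ≤ (P i).card).card ≤ K ^ 5 ∧
      (T.card : ℝ) ≤ K ^ 5 ∧ S ⊆ T + (Fintype.piFinset P - Fintype.piFinset P) := by
  classical
  have hSn : S.Nonempty := by rw [hS]; exact hD.image _
  have hS0 : (0 : ℝ) < S.card := by exact_mod_cast hSn.card_pos
  have hAA : (0 : ℝ) < (S + S).card := by exact_mod_cast (hSn.add hSn).card_pos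
  have hK0 : 0 < K := by
    by_contra h
    have : K * S.card ≤ 0 := mul_nonpos_of_nonpos_of_nonneg (le_of_not_gt h) hS0.le
    linarith
  -- labels
  obtain ⟨ρ, hρ⟩ : ∃ ρ : Fin d → (Fin d → ℤ) → ℕ, ρ = fun i x => Function.invFun (h i) (x i) :=
    ⟨_, rfl⟩
  have hρ1 : ∀ y : Fin d → ℕ, ∀ i, ρ i (fun i => h i (y i)) = y i := by
    intro y i
    rw [hρ]
    exact Function.leftInverse_invFun (hinj i) (y i)
  have hlab : Labelling S id ρ := by
    intro a ha b hb i _
    rw [hS] at ha hb
    obtain ⟨y, hy, rfl⟩ := Finset.mem_image.1 ha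
    obtain ⟨z, hz, rfl⟩ := Finset.mem_image.1 hb
    rw [hρ1, hρ1]
    simp only [id]
    exact (hinj i).eq_iff.symm
  have hsm := small_doubling S hSn id ρ (fun a _ b _ a' _ b' _ h => h) hlab K 1 one_pos hK
  rw [one_pow, one_mul, one_mul] at hsm
  have hex : ∃ a ∈ S, (S.card : ℝ) / K ^ 4 ≤ size S id ρ a := by
    by_contra hcon
    push Not at hcon
    rw [Finset.filter_true_of_mem hcon] at hsm
    exact lt_irrefl _ hsm
  obtain ⟨a, haS, ha⟩ := hex
  have haS' := haS
  rw [hS] at haS'
  obtain ⟨y, hy, rfl⟩ := Finset.mem_image.1 haS'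
  have hsize : size S id ρ (fun i => h i (y i)) = ∏ i, (y i + 1) := by
    unfold size
    have : (S.filter fun b => id b = id (fun i => h i (y i))) = {fun i => h i (y i)} := by
      ext b
      simp only [Finset.mem_filter, Finset.mem_singleton, id]
      constructor
      · exact fun h => h.2
      · rintro rfl; exact ⟨haS, rfl⟩
    rw [this, Finset.card_singleton, mul_one]
    exact Finset.prod_congr rfl fun i _ => by rw [hρ1]
  rw [hsize] at ha
  obtain ⟨P, hP⟩ : ∃ P : Fin d → Finset ℤ, P = fun i => (range (y i + 1)).image (h i) := ⟨_, rfl⟩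
  have hPc : ∀ i, (P i).card = y i + 1 := by
    intro i
    rw [hP]
    dsimp only
    rw [Finset.card_image_of_injective _ (hinj i), Finset.card_range]
  have hPS : Fintype.piFinset P ⊆ S := by
    intro x hx
    rw [Fintype.mem_piFinset] at hx
    have : ∀ i, ∃ z ∈ range (y i + 1), h i z = x i := by
      intro i
      have := hx i
      rw [hP] at this
      exact Finset.mem_image.1 this
    choose z hz hz' using this
    rw [hS, Finset.mem_image]
    refine ⟨z, hdown y hy z (fun i => ?_), ?_⟩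
    · have := Finset.mem_range.1 (hz i)
      show z i ≤ y i
      omega
    · funext i; exact hz' i
  have hPp : (∏ i, ((P i).card : ℝ)) = ((∏ i, (y i + 1) : ℕ) : ℝ) := by
    push_cast
    refine Finset.prod_congr rfl fun i _ => ?_
    rw [hPc]; push_cast; rfl
  have hPpos : 0 < ∏ i, ((P i).card : ℝ) := by
    apply Finset.prod_pos
    intro i _
    rw [hPc]
    exact_mod_cast Nat.succ_pos _
  have h1 : (S.card : ℝ) ≤ K ^ 4 * ∏ i, ((P i).card : ℝ) := by
    rw [hPp]
    rwa [div_le_iff₀ (by positivity), mul_comm] at ha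
  have h2 : ((S + S).card : ℝ) ≤ K ^ 5 * ∏ i, ((P i).card : ℝ) := by
    calc ((S + S).card : ℝ) ≤ K * S.card := hK
      _ ≤ K * (K ^ 4 * ∏ i, ((P i).card : ℝ)) := mul_le_mul_of_nonneg_left h1 hK0.le
      _ = _ := by ring
  have h3 : ∏ i, ((P i + P i).card : ℝ) ≤ K ^ 5 * ∏ i, ((P i).card : ℝ) := by
    refine le_trans ?_ h2
    have := piFinset_add_card P S hPS
    exact_mod_cast this
  have hPn : ∀ i, (P i).Nonempty := fun i => Finset.card_pos.1 (by rw [hPc]; omega)
  have h4 : (3 / 2 : ℝ) ^ (univ.filter fun i => 2 ≤ (P i).card).card ≤ K ^ 5 := by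
    have h5 : (3 / 2 : ℝ) ^ (univ.filter fun i => 2 ≤ (P i).card).card * ∏ i, ((P i).card : ℝ) ≤
        ∏ i, ((P i + P i).card : ℝ) := by
      rw [← Finset.prod_const, Finset.prod_filter, ← Finset.prod_mul_distrib]
      apply Finset.prod_le_prod
      · intro i _
        split_ifs <;> positivity
      · intro i _
        have h6 : (P i).card + (P i).card - 1 ≤ (P i + P i).card :=
          cauchy_davenport_add_of_linearOrder_isCancelAdd (hPn i) (hPn i)
        split_ifs with h7
        · have h8 : (P i).card + (P i).card ≤ (P i + P i).card + 1 := by omega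
          have h9 : ((P i).card : ℝ) + (P i).card ≤ (P i + P i).card + 1 := by exact_mod_cast h8
          have h10 : (2 : ℝ) ≤ (P i).card := by exact_mod_cast h7
          linarith
        · have h8 : (P i).card ≤ (P i + P i).card := by
            have := (hPn i).card_pos
            omega
          rw [one_mul]
          exact_mod_cast h8
    exact le_of_mul_le_mul_right (h5.trans h3) hPpos
  -- covering
  have hpin : (Fintype.piFinset P).Nonempty := Fintype.piFinset_nonempty.2 hPn
  have h5 : ((S + Fintype.piFinset P).card : ℝ) ≤ K ^ 5 * (Fintype.piFinset P).card := by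
    have h6 : (S + Fintype.piFinset P).card ≤ (S + S).card :=
      Finset.card_le_card (Finset.add_subset_add_left hPS)
    have h7 : ((S + Fintype.piFinset P).card : ℝ) ≤ (S + S).card := by exact_mod_cast h6
    refine h7.trans (h2.trans (le_of_eq ?_))
    rw [Fintype.card_piFinset]
    push_cast
    rfl
  obtain ⟨T, -, hT1, hT2⟩ := Finset.ruzsa_covering_add hpin h5
  exact ⟨P, T, hPn, hPS, h1, h3, h4, hT1, hT2⟩

end Pool.Agent.U685.DF
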